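import Mathlib

/-! Disjoint copies of a graph, and classes of size `2 Δ - 2` without a full matching. -/

set_option autoImplicit false
set_option linter.unusedSectionVars false

namespace Pool.Agent.FairM

/-- `n` disjoint copies of the graph `G`. -/
def Copies {V : Type} (n : ℕ) (G : SimpleGraph V) : SimpleGraph (Fin n × V) where
  Adj x y := x.1 = y.1 ∧ G.Adj x.2 y.2
  symm := ⟨fun _ _ h => ⟨h.1.symm, h.2.symm⟩⟩
  loopless := ⟨fun _ h => G.loopless.irrefl _ h.2⟩

/-- `M` is a matching of `H`. -/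
def IsM {W : Type} (H : SimpleGraph W) (M : Set (Sym2 W)) : Prop :=
  M ⊆ H.edgeSet ∧ ∀ x : W, ∀ e ∈ M, ∀ f ∈ M, x ∈ e → x ∈ f → e = f

section

variable {V : Type} [Finite V] {n : ℕ} {G : SimpleGraph V}

theorem copies_nbr (a : Fin n) (x : V) :
    (Copies n G).neighborSet (a, x) = (fun y : V => (a, y)) '' (G.neighborSet x) := by
  ext ⟨b, y⟩
  simp only [SimpleGraph.mem_neighborSet, Copies, Set.mem_image, Prod.mk.injEq]
  constructor
  · rintro ⟨h1, h2⟩
    exact ⟨y, h2, h1, rfl⟩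
  · rintro ⟨z, hz, h1, h2⟩
    subst h2
    exact ⟨h1, hz⟩

theorem copies_deg (a : Fin n) (x : V) :
    ((Copies n G).neighborSet (a, x)).ncard = (G.neighborSet x).ncard := by
  rw [copies_nbr]
  exact Set.ncard_image_of_injective _ fun y z h => (Prod.mk.inj h).2

open scoped Classical in
/-- The class of an edge. -/
noncomputable def cl (n : ℕ) (u v : V) (e : Sym2 (Fin n × V)) : ℕ :=
  if ∃ a : Fin n, e = s((a, u), (a, v)) then 0
  else if h : ∃ a : Fin n, (a, u) ∈ e ∨ (a, v) ∈ e then (Classical.choose h).val + 1 else n + 1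

theorem mem_edge_fst {e : Sym2 (Fin n × V)} (he : e ∈ (Copies n G).edgeSet) {x y : Fin n × V}
    (hx : x ∈ e) (hy : y ∈ e) : x.1 = y.1 := by
  induction e using Sym2.ind with
  | _ p q =>
    rw [SimpleGraph.mem_edgeSet] at he
    have h1 : p.1 = q.1 := he.1
    rw [Sym2.mem_iff] at hx hy
    rcases hx with rfl | rfl <;> rcases hy with rfl | rfl
    · rfl
    · exact h1
    · exact h1.symm
    · rfl

theorem cl_special {u v : V} (a : Fin n) : cl n u v s((a, u), (a, v)) = 0 := by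
  unfold cl
  rw [if_pos ⟨a, rfl⟩]

theorem cl_near {u v : V} {e : Sym2 (Fin n × V)} (he : e ∈ (Copies n G).edgeSet) {a : Fin n}
    (ha : (a, u) ∈ e ∨ (a, v) ∈ e) (hne : e ≠ s((a, u), (a, v))) : cl n u v e = a.val + 1 := by
  classical
  obtain ⟨x, hx, hxa⟩ : ∃ x ∈ e, x.1 = a := by
    rcases ha with h | h
    · exact ⟨_, h, rfl⟩
    · exact ⟨_, h, rfl⟩
  unfold cl
  rw [if_neg, dif_pos ⟨a, ha⟩]
  · have h1 := Classical.choose_spec (⟨a, ha⟩ : ∃ a : Fin n, (a, u) ∈ e ∨ (a, v) ∈ e)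
    have h2 : Classical.choose (⟨a, ha⟩ : ∃ a : Fin n, (a, u) ∈ e ∨ (a, v) ∈ e) = a := by
      rcases h1 with h | h
      · exact (mem_edge_fst he h hx).trans hxa
      · exact (mem_edge_fst he h hx).trans hxa
    rw [h2]
  · rintro ⟨b, hb⟩
    have h1 : ((b, u) : Fin n × V) ∈ e := by rw [hb]; exact Sym2.mem_mk_left _ _
    have h2 := mem_edge_fst he h1 hx
    have h3 : b = a := by rw [← hxa, ← h2]
    rw [h3] at hb
    exact hne hb

theorem cl_eq_zero {u v : V} {e : Sym2 (Fin n × V)} : cl n u v e = 0 ↔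
    ∃ a : Fin n, e = s((a, u), (a, v)) := by
  classical
  constructor
  · intro h
    by_contra hcon
    unfold cl at h
    rw [if_neg hcon] at h
    split_ifs at h
  · rintro ⟨a, rfl⟩
    exact cl_special a

theorem cl_eq_succ {u v : V} {e : Sym2 (Fin n × V)} (he : e ∈ (Copies n G).edgeSet) (a : Fin n) :
    cl n u v e = a.val + 1 ↔ ((a, u) ∈ e ∨ (a, v) ∈ e) ∧ e ≠ s((a, u), (a, v)) := by
  classical
  constructor
  · intro h
    have h0 : ¬ ∃ b : Fin n, e = s((b, u), (b, v)) := by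
      intro hcon
      rw [cl_eq_zero.2 hcon] at h
      omega
    unfold cl at h
    rw [if_neg h0] at h
    split_ifs at h with h1
    · have h2 : Classical.choose h1 = a := Fin.ext (by omega)
      have h3 := Classical.choose_spec h1
      rw [h2] at h3
      exact ⟨h3, fun hcon => h0 ⟨a, hcon⟩⟩
    · have := a.isLt
      omega
  · rintro ⟨h1, h2⟩
    exact cl_near he h1 h2

theorem inc_ncard {W : Type} [Finite W] (H : SimpleGraph W) (x : W) :
    {e ∈ H.edgeSet | x ∈ e}.ncard = (H.neighborSet x).ncard := by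
  have h1 : {e ∈ H.edgeSet | x ∈ e} = (fun y => s(x, y)) '' (H.neighborSet x) := by
    ext e
    constructor
    · rintro ⟨h2, h3⟩
      obtain ⟨y, rfl⟩ := Sym2.mem_iff_exists.1 h3
      exact ⟨y, by simpa using h2, rfl⟩
    · rintro ⟨y, hy, rfl⟩
      exact ⟨by simpa using hy, Sym2.mem_mk_left _ _⟩
  rw [h1]
  exact Set.ncard_image_of_injective _ fun y z h => by
    rcases Sym2.eq_iff.1 h with h2 | h2
    · exact h2.2
    · exact h2.2.trans h2.1

/-- The classes `0, 1, …, n` have `n = 2 d - 2` edges when `u`, `v` are adjacent of degree `d`. -/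
theorem card_zero {u v : V} (huv : G.Adj u v) :
    {e ∈ (Copies n G).edgeSet | cl n u v e = 0}.ncard = n := by
  have h1 : {e ∈ (Copies n G).edgeSet | cl n u v e = 0}
      = Set.range fun a : Fin n => s((a, u), (a, v)) := by
    ext e
    constructor
    · rintro ⟨_, h⟩
      obtain ⟨a, rfl⟩ := cl_eq_zero.1 h
      exact ⟨a, rfl⟩
    · rintro ⟨a, rfl⟩
      exact ⟨⟨rfl, huv⟩, cl_special a⟩
  rw [h1, Set.ncard_range_of_injective, Nat.card_eq_fintype_card, Fintype.card_fin]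
  intro a b h
  have h2 : ((a, u) : Fin n × V) ∈ s((b, u), (b, v)) := by
    have h3 : s((a, u), (a, v)) = s((b, u), (b, v)) := h
    rw [← h3]
    exact Sym2.mem_mk_left _ _
  rw [Sym2.mem_iff] at h2
  rcases h2 with h2 | h2
  · exact (Prod.mk.inj h2).1
  · exact (Prod.mk.inj h2).1

theorem card_succ {u v : V} (huv : G.Adj u v) {d : ℕ} (hu : (G.neighborSet u).ncard = d)
    (hv : (G.neighborSet v).ncard = d) (a : Fin n) :
    {e ∈ (Copies n G).edgeSet | cl n u v e = a.val + 1}.ncard = 2 * d - 2 := by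
  set H := Copies n G with hH
  set A := {e ∈ H.edgeSet | (a, u) ∈ e} with hA
  set B := {e ∈ H.edgeSet | (a, v) ∈ e} with hB
  have hs : s((a, u), (a, v)) ∈ H.edgeSet := ⟨rfl, huv⟩
  have h1 : {e ∈ H.edgeSet | cl n u v e = a.val + 1} = (A ∪ B) \ {s((a, u), (a, v))} := by
    ext e
    simp only [Set.mem_ofPred_eq, Set.mem_sdiff, Set.mem_union, Set.mem_singleton_iff, hA, hB]
    constructor
    · rintro ⟨h2, h3⟩
      rw [cl_eq_succ h2] at h3
      exact ⟨h3.1.imp (fun h => ⟨h2, h⟩) (fun h => ⟨h2, h⟩), h3.2⟩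
    · rintro ⟨h2, h3⟩
      have h4 : e ∈ H.edgeSet := by rcases h2 with h2 | h2 <;> exact h2.1
      exact ⟨h4, (cl_eq_succ h4 a).2 ⟨h2.imp (fun h => h.2) (fun h => h.2), h3⟩⟩
  have h2 : A ∩ B = {s((a, u), (a, v))} := by
    ext e
    simp only [Set.mem_inter_iff, Set.mem_singleton_iff, hA, hB, Set.mem_ofPred_eq]
    constructor
    · rintro ⟨⟨_, h3⟩, ⟨_, h4⟩⟩
      exact (Sym2.mem_and_mem_iff (by
        intro hcon
        exact huv.ne (Prod.mk.inj hcon).2)).1 ⟨h3, h4⟩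
    · rintro rfl
      exact ⟨⟨hs, Sym2.mem_mk_left _ _⟩, ⟨hs, Sym2.mem_mk_right _ _⟩⟩
  have h3 := Set.ncard_union_add_ncard_inter A B
  rw [h2, Set.ncard_singleton, hA, hB, inc_ncard, inc_ncard, hH, copies_deg, copies_deg, hu, hv]
    at h3
  rw [h1, Set.ncard_sdiff_singleton_of_mem]
  · rw [hA, hB, hH]
    omega
  · exact Or.inl ⟨hs, Sym2.mem_mk_left _ _⟩

/-- **General form.** -/
theorem general (G : SimpleGraph V) (u v : V) (huv : G.Adj u v) (d : ℕ)
    (hu : (G.neighborSet u).ncard = d) (hv : (G.neighborSet v).ncard = d) :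
    ∃ c : Sym2 (Fin (2 * d - 2) × V) → ℕ,
      ∀ M : Set (Sym2 (Fin (2 * d - 2) × V)), IsM (Copies (2 * d - 2) G) M →
        ∃ i : ℕ, {e ∈ (Copies (2 * d - 2) G).edgeSet | c e = i}.ncard = 2 * d - 2 ∧
          {e ∈ M | c e = i} = ∅ := by
  refine ⟨cl (2 * d - 2) u v, fun M hM => ?_⟩
  by_cases h0 : {e ∈ M | cl (2 * d - 2) u v e = 0} = ∅
  · exact ⟨0, card_zero huv, h0⟩
  · obtain ⟨e, heM, he⟩ := Set.nonempty_iff_ne_empty.2 h0
    obtain ⟨a, rfl⟩ := cl_eq_zero.1 he
    refine ⟨a.val + 1, card_succ huv hu hv a, ?_⟩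
    rw [Set.eq_empty_iff_forall_notMem]
    rintro f ⟨hfM, hf⟩
    have h1 := (cl_eq_succ (hM.1 hfM) a).1 hf
    rcases h1.1 with h2 | h2
    · exact h1.2 (hM.2 (a, u) f hfM _ heM h2 (Sym2.mem_mk_left _ _))
    · exact h1.2 (hM.2 (a, v) f hfM _ heM h2 (Sym2.mem_mk_right _ _))

end

end Pool.Agent.FairM
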