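import Pool.Agent.FairM.Copies

/-! The case of maximum degree three: five copies of `K_4` and six classes of five edges. -/

set_option autoImplicit false

namespace Pool.Agent.FairM

/-- The classes of the edges: `tab a i j` is the class of the edge `ij` of the `a`-th copy. -/
def tab : Fin 5 → Fin 4 → Fin 4 → ℕ := fun a i j =>
  (![![![9, 2, 0, 1], ![2, 9, 1, 3], ![0, 1, 9, 1], ![1, 3, 1, 9]],
     ![![9, 5, 5, 4], ![5, 9, 4, 5], ![5, 4, 9, 5], ![4, 5, 5, 9]],
     ![![9, 4, 0, 3], ![4, 9, 3, 0], ![0, 3, 9, 4], ![3, 0, 4, 9]],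
     ![![9, 5, 0, 3], ![5, 9, 3, 0], ![0, 3, 9, 4], ![3, 0, 4, 9]],
     ![![9, 2, 2, 1], ![2, 9, 1, 2], ![2, 1, 9, 2], ![1, 2, 2, 9]]] :
    Fin 5 → Fin 4 → Fin 4 → ℕ) a i j

theorem tab_symm : ∀ a i j, tab a i j = tab a j i := by decide

/-- The class of an edge. -/
def col : Sym2 (Fin 5 × Fin 4) → ℕ :=
  Sym2.lift ⟨fun u v => if u.1 = v.1 then tab u.1 u.2 v.2 else 9, by
    intro u v
    by_cases h : u.1 = v.1
    · simp only [h, if_true]
      exact tab_symm _ _ _
    · simp only [h, Ne.symm h, if_false]⟩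

theorem col_mk (a : Fin 5) (i j : Fin 4) : col s((a, i), (a, j)) = tab a i j := by
  simp [col]

/-- Two disjoint edges of the same copy with different classes. -/
theorem tab_pair : ∀ a i j k l, i ≠ j → k ≠ l → i ≠ k → i ≠ l → j ≠ k → j ≠ l →
    tab a i j < tab a k l →
    (a = 0 ∧ tab a i j = 0 ∧ tab a k l = 3) ∨ (a = 0 ∧ tab a i j = 1 ∧ tab a k l = 2) ∨
    (a = 3 ∧ tab a i j = 4 ∧ tab a k l = 5) := by
  decide

/-- The copies which contain edges of a given class. -/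
theorem tab_copy : ∀ a i j, i ≠ j →
    (tab a i j = 0 → a = 0 ∨ a = 2 ∨ a = 3) ∧ (tab a i j = 1 → a = 0 ∨ a = 4) ∧
    (tab a i j = 2 → a = 0 ∨ a = 4) ∧ (tab a i j = 3 → a = 0 ∨ a = 2 ∨ a = 3) ∧
    (tab a i j = 4 → a = 1 ∨ a = 2 ∨ a = 3) ∧ (tab a i j = 5 → a = 1 ∨ a = 3) := by
  decide

instance : DecidableRel (Copies 5 (⊤ : SimpleGraph (Fin 4))).Adj :=
  fun u v => inferInstanceAs (Decidable (u.1 = v.1 ∧ u.2 ≠ v.2))

theorem card_class (p : ℕ) (hp : p < 6) :
    5 ≤ ((Copies 5 (⊤ : SimpleGraph (Fin 4))).edgeFinset.filter (fun e => col e = p)).card := by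
  interval_cases p <;> decide

theorem ncard_class (p : ℕ) (hp : p < 6) :
    5 ≤ {e ∈ (Copies 5 (⊤ : SimpleGraph (Fin 4))).edgeSet | col e = p}.ncard := by
  have h1 : {e ∈ (Copies 5 (⊤ : SimpleGraph (Fin 4))).edgeSet | col e = p}
      = (((Copies 5 (⊤ : SimpleGraph (Fin 4))).edgeFinset.filter (fun e => col e = p) :
        Finset (Sym2 (Fin 5 × Fin 4))) : Set (Sym2 (Fin 5 × Fin 4))) := by
    ext e
    simp
  rw [h1, Set.ncard_coe_finset]
  exact card_class p hp

theorem edge_cases {e : Sym2 (Fin 5 × Fin 4)}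
    (he : e ∈ (Copies 5 (⊤ : SimpleGraph (Fin 4))).edgeSet) :
    ∃ a i j, i ≠ j ∧ e = s((a, i), (a, j)) := by
  induction e using Sym2.ind with
  | _ u v =>
    rw [SimpleGraph.mem_edgeSet] at he
    obtain ⟨a, i⟩ := u
    obtain ⟨b, j⟩ := v
    obtain ⟨h1, h2⟩ := he
    simp only at h1 h2
    subst h1
    exact ⟨a, i, j, h2, rfl⟩

/-- no matching meets all six classes -/
theorem three (M : Set (Sym2 (Fin 5 × Fin 4))) (hM : IsM (Copies 5 ⊤) M) :
    ∃ i : ℕ, 5 ≤ {e ∈ (Copies 5 (⊤ : SimpleGraph (Fin 4))).edgeSet | col e = i}.ncard ∧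
      {e ∈ M | col e = i} = ∅ := by
  by_contra hcon
  push Not at hcon
  -- every class is met by `M`
  have hmeet : ∀ p < 6, ∃ a i j, i ≠ j ∧ s((a, i), (a, j)) ∈ M ∧ tab a i j = p := by
    intro p hp
    obtain ⟨e, he1, he2⟩ := hcon p (ncard_class p hp)
    obtain ⟨a, i, j, hij, rfl⟩ := edge_cases (hM.1 he1)
    exact ⟨a, i, j, hij, he1, by rw [← col_mk]; exact he2⟩
  choose! a i j hij hmem hcol using hmeet
  -- two edges of `M` in the same copy with distinct classes
  have hpair : ∀ p < 6, ∀ q < 6, p < q → a p = a q →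
      (a p = 0 ∧ p = 0 ∧ q = 3) ∨ (a p = 0 ∧ p = 1 ∧ q = 2) ∨ (a p = 3 ∧ p = 4 ∧ q = 5) := by
    intro p hp q hq hpq hapq
    have hne : ∀ v, v ∈ s((a p, i p), (a p, j p)) → v ∉ s((a q, i q), (a q, j q)) := by
      intro v h1 h2
      have h3 := hM.2 v _ (hmem p hp) _ (hmem q hq) h1 h2
      have h4 := congrArg col h3
      rw [col_mk, col_mk, hcol p hp, hcol q hq] at h4
      omega
    have n1 : i p ≠ i q := fun h => hne (a p, i p) (by simp) (by rw [hapq, h]; simp)
    have n2 : i p ≠ j q := fun h => hne (a p, i p) (by simp) (by rw [hapq, h]; simp)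
    have n3 : j p ≠ i q := fun h => hne (a p, j p) (by simp) (by rw [hapq, h]; simp)
    have n4 : j p ≠ j q := fun h => hne (a p, j p) (by simp) (by rw [hapq, h]; simp)
    have h5 := tab_pair (a p) (i p) (j p) (i q) (j q) (hij p hp) (hij q hq) n1 n2 n3 n4
    rw [hcol p hp, hapq, hcol q hq] at h5
    rw [hapq]
    exact h5 hpq
  have c0 := (tab_copy (a 0) (i 0) (j 0) (hij 0 (by omega))).1 (hcol 0 (by omega))
  have c1 := (tab_copy (a 1) (i 1) (j 1) (hij 1 (by omega))).2.1 (hcol 1 (by omega))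
  have c2 := (tab_copy (a 2) (i 2) (j 2) (hij 2 (by omega))).2.2.1 (hcol 2 (by omega))
  have c3 := (tab_copy (a 3) (i 3) (j 3) (hij 3 (by omega))).2.2.2.1 (hcol 3 (by omega))
  have c4 := (tab_copy (a 4) (i 4) (j 4) (hij 4 (by omega))).2.2.2.2.1 (hcol 4 (by omega))
  have c5 := (tab_copy (a 5) (i 5) (j 5) (hij 5 (by omega))).2.2.2.2.2 (hcol 5 (by omega))
  have h01 := hpair 0 (by omega) 1 (by omega) (by omega)
  have h02 := hpair 0 (by omega) 2 (by omega) (by omega)
  have h03 := hpair 0 (by omega) 3 (by omega) (by omega)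
  have h04 := hpair 0 (by omega) 4 (by omega) (by omega)
  have h05 := hpair 0 (by omega) 5 (by omega) (by omega)
  have h12 := hpair 1 (by omega) 2 (by omega) (by omega)
  have h13 := hpair 1 (by omega) 3 (by omega) (by omega)
  have h23 := hpair 2 (by omega) 3 (by omega) (by omega)
  have h34 := hpair 3 (by omega) 4 (by omega) (by omega)
  have h35 := hpair 3 (by omega) 5 (by omega) (by omega)
  have h45 := hpair 4 (by omega) 5 (by omega) (by omega)
  generalize a 0 = x0 at *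
  generalize a 1 = x1 at *
  generalize a 2 = x2 at *
  generalize a 3 = x3 at *
  generalize a 4 = x4 at *
  generalize a 5 = x5 at *
  clear hpair hmem hcol hij hM hcon
  rcases c1 with rfl | rfl <;> rcases c2 with rfl | rfl <;>
  rcases c0 with rfl | rfl | rfl <;> rcases c3 with rfl | rfl | rfl <;>
  rcases c4 with rfl | rfl | rfl <;> rcases c5 with rfl | rfl <;>
  simp at h01 h02 h03 h04 h05 h12 h13 h23 h34 h35 h45

end Pool.Agent.FairM
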